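import Mathlib
import Pool.Agent.Y627.SP.Norm

set_option autoImplicit false

namespace Pool.Agent.Results.MP_f09850_nt.NormalAllDegrees

open Polynomial Filter Topology

/-- The naive height of an integer polynomial: the maximum absolute value of its coefficients. -/
def height (P : ℤ[X]) : ℕ := P.support.sup (fun i => (P.coeff i).natAbs)

/-- Mahler's exponent `w_n(ξ)`, in the extended reals. -/
noncomputable def wMahler (n : ℕ) (ξ : ℝ) : EReal :=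
  sSup {W : EReal | ∃ w : ℝ, W = (w : EReal) ∧
    {P : ℤ[X] | P.natDegree ≤ n ∧ 0 < |aeval ξ P| ∧
      |aeval ξ P| ≤ (height P : ℝ) ^ (-w)}.Infinite}

/-- `P` is the minimal polynomial over the integers of the real number `α`: the primitive integer
polynomial of least positive degree with positive leading coefficient that vanishes at `α`. -/
def IsMinimalPolynomial (P : ℤ[X]) (α : ℝ) : Prop :=
  P.IsPrimitive ∧ 0 < P.leadingCoeff ∧ 0 < P.natDegree ∧ aeval α P = 0 ∧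
    ∀ Q : ℤ[X], Q ≠ 0 → aeval α Q = 0 → P.natDegree ≤ Q.natDegree

/-- Koksma's exponent `w_n^*(ξ)`, in the extended reals. The set is the set of real algebraic
numbers `α` of degree at most `n` with `0 < |ξ - α| ≤ H(α) ^ (-w - 1)`. -/
noncomputable def wKoksma (n : ℕ) (ξ : ℝ) : EReal :=
  sSup {W : EReal | ∃ w : ℝ, W = (w : EReal) ∧
    {α : ℝ | ∃ P : ℤ[X], IsMinimalPolynomial P α ∧ P.natDegree ≤ n ∧ 0 < |ξ - α| ∧
      |ξ - α| ≤ (height P : ℝ) ^ (-w - 1)}.Infinite}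

/-- `𝒲_n(τ)`: the real numbers with `w_n(ξ) = τ (n + 1) - 1`. -/
def MahlerLevel (n : ℕ) (τ : ℝ) : Set ℝ := {ξ | wMahler n ξ = ((τ * (n + 1) - 1 : ℝ) : EReal)}

/-- `𝒲_n^*(τ)`: the real numbers with `w_n^*(ξ) = τ (n + 1) - 1`. -/
def KoksmaLevel (n : ℕ) (τ : ℝ) : Set ℝ := {ξ | wKoksma n ξ = ((τ * (n + 1) - 1 : ℝ) : EReal)}

/-- `ξ` is simply normal in base `b`: each digit `d < b` has asymptotic frequency `1 / b` in the
base-`b` expansion of `ξ`; the digit in position `j + 1` after the point is `⌊ξ b ^ (j + 1)⌋ mod b`. -/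
def SimplyNormal (b : ℕ) (ξ : ℝ) : Prop :=
  ∀ d : ℕ, d < b → Tendsto (fun N : ℕ => (((Finset.range N).filter
    (fun j : ℕ => ⌊ξ * (b : ℝ) ^ (j + 1)⌋ % (b : ℤ) = (d : ℤ))).card : ℝ) / (N : ℝ))
    atTop (𝓝 (1 / (b : ℝ)))

/-- `ξ` is normal: in every base `b ≥ 2` every block `d` of `k` digits has asymptotic frequency
`b ^ (-k)` in the base-`b` expansion of `ξ`. -/
def Normal (ξ : ℝ) : Prop :=
  ∀ b : ℕ, 2 ≤ b → ∀ (k : ℕ) (d : Fin k → Fin b),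
    Tendsto (fun N : ℕ => (((Finset.range N).filter (fun j : ℕ => ∀ i : Fin k,
      ⌊ξ * (b : ℝ) ^ (j + 1 + (i : ℕ))⌋ % (b : ℤ) = (((d i : ℕ)) : ℤ))).card : ℝ) / (N : ℝ))
      atTop (𝓝 (1 / (b : ℝ) ^ k))

/-- The transcendental real numbers that are normal and simply normal in every base and satisfy
`w_n(ξ) = w_n^*(ξ) = τ_n (n + 1) - 1` for all `n ≥ 1` at once. -/
def NormalPrescribed (τ : ℕ → ℝ) : Set ℝ :=
  {ξ : ℝ | Transcendental ℚ ξ ∧ Normal ξ ∧ (∀ b : ℕ, 2 ≤ b → SimplyNormal b ξ) ∧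
    ∀ n : ℕ, 1 ≤ n → ξ ∈ MahlerLevel n (τ n) ∧ ξ ∈ KoksmaLevel n (τ n)}

lemma exists_prescribed (av : ℕ → ℝ) (τ : ℕ → ℝ) (hτ : ∀ n : ℕ, 1 ≤ n → 1 ≤ τ n)
    (hm : ∀ m n : ℕ, 1 ≤ m → m ≤ n → τ m * (m + 1) ≤ τ n * (n + 1)) :
    ∃ ξ ∈ NormalPrescribed τ, ∀ k, ξ ≠ av k := by
  have hw1 : ∀ n : ℕ, 1 ≤ n → (n : ℝ) ≤ τ n * (n + 1) - 1 := by
    intro n hn
    have h1 := hτ n hn
    have h2 : (0 : ℝ) ≤ n := Nat.cast_nonneg n
    nlinarith
  obtain ⟨ξ, h0, h1, h2, h3, h4⟩ := Pool.Agent.Y627.SP.all_deg_weyl av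
    (fun n => τ n * (n + 1) - 1) hw1 (fun i j hi hij => by
      have := hm i j hi hij
      linarith)
  have hroot := Pool.Agent.Y627.SP.no_root ξ _ h1
  have hblock : Normal ξ := fun b hb k d =>
    Pool.Agent.H493R3.block_freq b hb ξ (h4 b hb) k d
  refine ⟨ξ, ⟨Pool.Agent.Y627.SP.trans_of_no_root ξ hroot, hblock, ?_, ?_⟩, h0⟩
  · intro b hb d hd
    have h5 := hblock b hb 1 (fun _ => ⟨d, hd⟩)
    rw [pow_one] at h5
    refine h5.congr (fun N => ?_)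
    congr 3
    ext j
    simp only [Finset.mem_filter, Fin.forall_fin_one, Fin.val_zero, add_zero]
  · intro n hn
    have hwn := hw1 n hn
    have hn0 : (1 : ℝ) ≤ n := by exact_mod_cast hn
    have hpos : 0 < τ n * ((n : ℝ) + 1) - 1 := by linarith
    exact ⟨le_antisymm (Pool.Agent.W71.wM_le ξ _ (h1 n hn))
        (Pool.Agent.Y627.SP.wM_ge ξ _ hpos hroot (h3 n hn)),
      le_antisymm (Pool.Agent.W71.wK_le ξ _ hpos.le (h1 n hn))
        (Pool.Agent.Y627.SP.wK_ge ξ _ hpos hroot (h3 n hn))⟩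

lemma wMahler_mono (ξ : ℝ) {m n : ℕ} (h : m ≤ n) : wMahler m ξ ≤ wMahler n ξ := by
  apply sSup_le_sSup
  rintro W ⟨w, rfl, hw⟩
  exact ⟨w, rfl, hw.mono (fun P hP => ⟨hP.1.trans h, hP.2⟩)⟩

/-- (A) For every `n ≥ 1` and every real `τ > 1` there is a normal number (simply normal in every
base) that lies in both `𝒲_n(τ)` and `𝒲_n^*(τ)`, and there is a number that lies in both sets and
is simply normal in no base.
(B) New: for all reals `τ_n ≥ 1` (`n ≥ 1`), there is a number that is normal and lies in `𝒲_n(τ_n)`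
and in `𝒲_n^*(τ_n)` for ALL `n ≥ 1` at once if and only if `(n + 1) τ_n` is non-decreasing, and in
that case the transcendental numbers with this property form an uncountable set. -/
theorem result :
    (∀ n : ℕ, 1 ≤ n → ∀ τ : ℝ, 1 < τ →
      (∃ ξ : ℝ, ξ ∈ MahlerLevel n τ ∧ ξ ∈ KoksmaLevel n τ ∧ Normal ξ ∧
        ∀ b : ℕ, 2 ≤ b → SimplyNormal b ξ) ∧
      (∃ ξ : ℝ, ξ ∈ MahlerLevel n τ ∧ ξ ∈ KoksmaLevel n τ ∧
        ∀ b : ℕ, 2 ≤ b → ¬ SimplyNormal b ξ)) ∧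
    (∀ τ : ℕ → ℝ, (∀ n : ℕ, 1 ≤ n → 1 ≤ τ n) →
      ((∃ ξ : ℝ, Normal ξ ∧ ∀ n : ℕ, 1 ≤ n → ξ ∈ MahlerLevel n (τ n) ∧ ξ ∈ KoksmaLevel n (τ n)) ↔
        ∀ m n : ℕ, 1 ≤ m → m ≤ n → τ m * (m + 1) ≤ τ n * (n + 1)) ∧
      ((∀ m n : ℕ, 1 ≤ m → m ≤ n → τ m * (m + 1) ≤ τ n * (n + 1)) →
        ¬ (NormalPrescribed τ).Countable)) := by
  refine ⟨?_, ?_⟩
  · intro n hn τ hτ
    have hn0 : (1 : ℝ) ≤ n := by exact_mod_cast hn
    refine ⟨?_, ?_⟩
    · obtain ⟨ξ, ⟨-, h2, h3, h4⟩, -⟩ := exists_prescribed (fun _ => 0)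
        (fun _ => τ) (fun _ _ => hτ.le) (by
          intro i j hi hij
          have : (i : ℝ) ≤ j := by exact_mod_cast hij
          nlinarith)
      exact ⟨ξ, (h4 n hn).1, (h4 n hn).2, h2, h3⟩
    · have hw : (n : ℝ) < τ * (n + 1) - 1 := by nlinarith
      obtain ⟨ξ, h1, h2, h3⟩ := Pool.Agent.W71.nowhere_normal hn (τ * (n + 1) - 1) hw
      exact ⟨ξ, h1, h2, h3⟩
  · intro τ hτ
    refine ⟨⟨?_, ?_⟩, ?_⟩
    · rintro ⟨ξ, -, hξ⟩ m n hm hmn
      have h1 : wMahler m ξ = ((τ m * (m + 1) - 1 : ℝ) : EReal) := (hξ m hm).1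
      have h2 : wMahler n ξ = ((τ n * (n + 1) - 1 : ℝ) : EReal) := (hξ n (by omega)).1
      have h3 := wMahler_mono ξ hmn
      rw [h1, h2, EReal.coe_le_coe_iff] at h3
      linarith
    · intro hm
      obtain ⟨ξ, ⟨-, h2, -, h4⟩, -⟩ := exists_prescribed (fun _ => 0) τ hτ hm
      exact ⟨ξ, h2, h4⟩
    · intro hm hcount
      obtain ⟨av, hav⟩ := (hcount.union (Set.countable_singleton (0 : ℝ))).exists_eq_range
        ⟨0, Or.inr rfl⟩
      obtain ⟨ξ, hξ, hne⟩ := exists_prescribed av τ hτ hm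
      have : ξ ∈ Set.range av := by rw [← hav]; exact Or.inl hξ
      obtain ⟨k, hk⟩ := this
      exact hne k hk.symm

end Pool.Agent.Results.MP_f09850_nt.NormalAllDegrees
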